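import Mathlib

/-!
The finite group `G = V ⋊ H` of order `17^2 * 512`.
`V = F_17^2`, `B = Z/32 × Z/8` is an abelian subgroup of index two of `H = B ∪ B a`,
`a^2 = b0`, conjugation by `a` acts on `B` by `al` and on `V` by `sw`,
and `x : B` acts on `V` by the scalar `ph x`.
-/

set_option autoImplicit false

namespace Pool.Agent.P.MP_29dbc1_al

abbrev V : Type := ZMod 17 × ZMod 17
abbrev B : Type := ZMod 32 × ZMod 8

def al (x : B) : B := (x.1 + 12 * (x.2.val : ZMod 32), -x.2)
def b0 : B := (1, 0)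
def ph (x : B) : ZMod 17 := 3 ^ x.1.val * 2 ^ x.2.val
def sw (v : V) : V := (3 * v.2, v.1)

theorem twelve_add : ∀ i j : ZMod 8,
    12 * (((i + j).val : ℕ) : ZMod 32) = 12 * (i.val : ZMod 32) + 12 * (j.val : ZMod 32) := by
  decide +kernel

theorem al_add (x y : B) : al (x + y) = al x + al y := by
  unfold al
  ext
  · simp only [Prod.fst_add, Prod.snd_add]
    rw [twelve_add]; ring
  · simp only [Prod.snd_add]; ring

theorem al_al : ∀ x : B, al (al x) = x := by decide +kernel
theorem al_b0 : al b0 = b0 := by decide +kernel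
theorem al_zero : al 0 = 0 := by decide +kernel

theorem pow3_add : ∀ i j : ZMod 32,
    (3 : ZMod 17) ^ (i + j).val = 3 ^ i.val * 3 ^ j.val := by decide +kernel
theorem pow2_add : ∀ i j : ZMod 8,
    (2 : ZMod 17) ^ (i + j).val = 2 ^ i.val * 2 ^ j.val := by decide +kernel

theorem ph_add (x y : B) : ph (x + y) = ph x * ph y := by
  unfold ph
  simp only [Prod.fst_add, Prod.snd_add]
  rw [pow3_add, pow2_add]; ring

theorem ph_al : ∀ x : B, ph (al x) = ph x := by decide +kernel
theorem ph_b0 : ph b0 = 3 := by decide +kernel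
theorem ph_zero : ph 0 = 1 := by decide +kernel

theorem ph_neg_mul (x : B) : ph (-x) * ph x = 1 := by
  rw [← ph_add, neg_add_cancel, ph_zero]

theorem sw_add (v w : V) : sw (v + w) = sw v + sw w := by
  unfold sw; ext <;> simp [mul_add]
theorem sw_smul (c : ZMod 17) (v : V) : sw (c • v) = c • sw v := by
  unfold sw; ext <;> simp; ring
theorem sw_sw (v : V) : sw (sw v) = (3 : ZMod 17) • v := by
  unfold sw; ext <;> simp
theorem sw_zero : sw 0 = 0 := by decide +kernel

/-- The element `v * x * a^e`. -/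
@[ext]
structure G : Type where
  v : V
  x : B
  e : Bool
  deriving DecidableEq

def alE (e : Bool) (x : B) : B := if e then al x else x
def swE (e : Bool) (v : V) : V := if e then sw v else v
def cc (e f : Bool) : B := if e && f then b0 else 0

instance : Mul G := ⟨fun g h =>
  ⟨g.v + ph g.x • swE g.e h.v, g.x + alE g.e h.x + cc g.e h.e, xor g.e h.e⟩⟩
instance : One G := ⟨⟨0, 0, false⟩⟩
instance : Inv G := ⟨fun g =>
  ⟨-(ph (-(alE g.e g.x) - cc g.e g.e) • swE g.e g.v), -(alE g.e g.x) - cc g.e g.e, g.e⟩⟩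

theorem mul_def (g h : G) : g * h =
    ⟨g.v + ph g.x • swE g.e h.v, g.x + alE g.e h.x + cc g.e h.e, xor g.e h.e⟩ := rfl
theorem one_def : (1 : G) = ⟨0, 0, false⟩ := rfl
theorem inv_def (g : G) : g⁻¹ =
    ⟨-(ph (-(alE g.e g.x) - cc g.e g.e) • swE g.e g.v), -(alE g.e g.x) - cc g.e g.e, g.e⟩ := rfl

theorem G_assoc (g h k : G) : g * h * k = g * (h * k) := by
  obtain ⟨v, x, e⟩ := g
  obtain ⟨w, y, f⟩ := h
  obtain ⟨u, t, d⟩ := k
  simp only [mul_def]
  cases e <;> cases f <;> cases d <;> ext1 <;>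
    simp [alE, swE, cc, ph_add, ph_al, ph_b0, al_add, al_al, al_b0, sw_add, sw_smul, sw_sw,
      smul_smul, add_assoc] <;> abel

instance : Group G := Group.ofLeftAxioms G_assoc
  (by
    rintro ⟨v, x, e⟩
    simp only [mul_def, one_def]
    cases e <;> simp [alE, swE, cc, ph_zero])
  (by
    rintro ⟨v, x, e⟩
    simp only [mul_def, one_def, inv_def]
    cases e <;> simp [alE, swE, cc]
    abel)

instance : Finite G :=
  Finite.of_injective (fun g : G => (g.v, g.x, g.e)) (by
    rintro ⟨v, x, e⟩ ⟨w, y, f⟩ h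
    simp only [Prod.mk.injEq] at h
    obtain ⟨rfl, rfl, rfl⟩ := h
    rfl)

def iV (v : V) : G := ⟨v, 0, false⟩
def iB (x : B) : G := ⟨0, x, false⟩
def aG : G := ⟨0, 0, true⟩

theorem iV_add (v w : V) : iV (v + w) = iV v * iV w := by
  simp [iV, mul_def, alE, swE, cc, ph_zero]
theorem iB_add (x y : B) : iB (x + y) = iB x * iB y := by
  simp [iB, mul_def, alE, swE, cc]
theorem iB_zero : iB 0 = 1 := rfl
theorem iV_zero : iV 0 = 1 := rfl
theorem iB_mul_iV (x : B) (v : V) : iB x * iV v = iV (ph x • v) * iB x := by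
  simp [iB, iV, mul_def, alE, swE, cc]
theorem aG_mul_iV (v : V) : aG * iV v = iV (sw v) * aG := by
  simp [aG, iV, mul_def, alE, swE, cc, ph_zero, al_zero]
theorem aG_mul_iB (x : B) : aG * iB x = iB (al x) * aG := by
  simp [aG, iB, mul_def, alE, swE, cc, sw_zero]

theorem G_decomp (g : G) : g = iV g.v * iB g.x ∨ g = iV g.v * iB g.x * aG := by
  obtain ⟨v, x, e⟩ := g
  cases e
  · left; simp [iV, iB, mul_def, alE, swE, cc]
  · right; simp [iV, iB, aG, mul_def, alE, swE, cc]

theorem center_aux : ∀ x : B, ph x = 1 → al x = x → x = 0 ∨ x = (16, 0) := by decide +kernel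

theorem center_spec (g : G) (hg : g ∈ Subgroup.center G) :
    g.e = false ∧ (g.x = 0 ∨ g.x = (16, 0)) := by
  rw [Subgroup.mem_center_iff] at hg
  obtain ⟨v, x, e⟩ := g
  have h1 := hg (iV (1, 0))
  have h2 := hg aG
  cases e
  · refine ⟨rfl, center_aux x ?_ ?_⟩
    · have := congrArg (fun g : G => g.v.1) h1
      simp [iV, mul_def, alE, swE, cc, ph_zero] at this
      rw [add_comm] at this
      exact (add_left_cancel this).symm
    · have := congrArg G.x h2
      simpa [aG, mul_def, alE, swE, cc] using this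
  · exfalso
    have := congrArg (fun g : G => g.v.1) h1
    simp [iV, mul_def, alE, swE, cc, ph_zero, sw] at this
    exact absurd this (by decide)

end Pool.Agent.P.MP_29dbc1_al
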