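import Pool.Agent.P.MP_29dbc1_al.Tab

/-!
The central unit `u = F + S X + T Y` of the integral group ring of `G`, and a linear form that
vanishes on (central group element) * (symmetric element) but not on `u`.
-/

set_option autoImplicit false

namespace Pool.Agent.P.MP_29dbc1_al

abbrev Λ : Type := MonoidAlgebra ℤ G

noncomputable def o : G →* Λ := MonoidAlgebra.of ℤ G

noncomputable def E {A : Type} [Fintype A] (i : A → G) (c : A → ℤ) : Λ := ∑ x, c x • o (i x)

section generic
variable {A : Type} [Fintype A] (i : A → G)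

theorem E_congr {c d : A → ℤ} (h : ∀ x, c x = d x) : E i c = E i d := by
  rw [funext h]

theorem E_add (c d : A → ℤ) : E i (fun x => c x + d x) = E i c + E i d := by
  simp only [E, add_smul, Finset.sum_add_distrib]

theorem E_sub (c d : A → ℤ) : E i (fun x => c x - d x) = E i c - E i d := by
  simp only [E, sub_smul, Finset.sum_sub_distrib]

theorem E_neg (c : A → ℤ) : E i (fun x => -c x) = -E i c := by
  simp only [E, neg_smul, Finset.sum_neg_distrib]

theorem E_smul (n : ℤ) (c : A → ℤ) : E i (fun x => n * c x) = n • E i c := by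
  simp only [E, mul_smul, Finset.smul_sum]

theorem E_delta [AddCommGroup A] [DecidableEq A] (h0 : i 0 = 1) :
    E i (fun x => if x = 0 then 1 else 0) = 1 := by
  simp [E, h0]

theorem E_mul [AddCommGroup A] (hi : ∀ x y, i (x + y) = i x * i y) (c d : A → ℤ) :
    E i c * E i d = E i (conv c d) := by
  have hconv : ∀ x, conv c d x = ∑ y, c y * d (x - y) := by
    intro x
    refine Finset.sum_congr rfl fun y _ => ?_
    split_ifs with h
    · rw [h, zero_mul]
    · rfl
  simp only [E, hconv, Finset.sum_smul]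
  rw [Finset.sum_mul_sum, Finset.sum_comm (f := fun x y => (c y * d (x - y)) • o (i x))]
  refine Finset.sum_congr rfl fun y _ => ?_
  refine Fintype.sum_equiv (Equiv.addRight y) _ _ fun w => ?_
  simp only [Equiv.coe_addRight, add_sub_cancel_right]
  rw [smul_mul_smul_comm, ← map_mul, ← hi, add_comm]

theorem E_comm_of (w : Λ) (c : A → ℤ) (h : ∀ x, c x = 0 ∨ w * o (i x) = o (i x) * w) :
    w * E i c = E i c * w := by
  simp only [E, Finset.mul_sum, Finset.sum_mul]
  refine Finset.sum_congr rfl fun x _ => ?_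
  rcases h x with h | h
  · simp [h]
  · rw [mul_smul_comm, smul_mul_assoc, h]

theorem o_mul_E (g : G) (s : A ≃ A) (h : ∀ x, g * i x = i (s x) * g) (c : A → ℤ) :
    o g * E i c = E i (fun x => c (s.symm x)) * o g := by
  simp only [E, Finset.mul_sum, Finset.sum_mul]
  refine Fintype.sum_equiv s _ _ fun x => ?_
  rw [mul_smul_comm, smul_mul_assoc, ← map_mul, ← map_mul, h, Equiv.symm_apply_apply]

end generic

noncomputable def S : Λ := E iV cS
noncomputable def T : Λ := E iV (fun _ => 1)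
noncomputable def F : Λ := E iB cF
noncomputable def F' : Λ := E iB cF'
noncomputable def X : Λ := E iB cX
noncomputable def X' : Λ := E iB cX'
noncomputable def Y : Λ := E iB cY
noncomputable def Y' : Λ := E iB cY'

theorem ph_ne_zero (x : B) : ph x ≠ 0 := by
  intro h
  have := ph_neg_mul x
  rw [h, mul_zero] at this
  exact absurd this (by decide)

/-- scaling by `ph x` as a permutation of `V` -/
def scal (x : B) : V ≃ V where
  toFun v := ph x • v
  invFun v := ph (-x) • v
  left_inv v := by simp only [smul_smul, ph_neg_mul, one_smul]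
  right_inv v := by simp only [smul_smul]; rw [mul_comm, ph_neg_mul, one_smul]

def swEquiv : V ≃ V where
  toFun := sw
  invFun v := (6 : ZMod 17) • sw v
  left_inv v := by
    simp only [sw_sw, smul_smul]
    rw [show (6 : ZMod 17) * 3 = 1 by decide, one_smul]
  right_inv v := by
    simp only [sw_smul, sw_sw, smul_smul]
    rw [show (6 : ZMod 17) * 3 = 1 by decide, one_smul]

def alEquiv : B ≃ B where
  toFun := al
  invFun := al
  left_inv := al_al
  right_inv := al_al

theorem oV_comm (v w : V) : o (iV v) * o (iV w) = o (iV w) * o (iV v) := by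
  rw [← map_mul, ← map_mul, ← iV_add, ← iV_add, add_comm]

theorem oB_comm (v w : B) : o (iB v) * o (iB w) = o (iB w) * o (iB v) := by
  rw [← map_mul, ← map_mul, ← iB_add, ← iB_add, add_comm]

theorem oV_EV (v : V) (c : V → ℤ) : o (iV v) * E iV c = E iV c * o (iV v) :=
  E_comm_of _ _ _ fun w => Or.inr (oV_comm v w)

theorem oB_EB (x : B) (c : B → ℤ) : o (iB x) * E iB c = E iB c * o (iB x) :=
  E_comm_of _ _ _ fun w => Or.inr (oB_comm x w)

theorem EB_comm (c d : B → ℤ) : E iB c * E iB d = E iB d * E iB c :=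
  E_comm_of _ _ _ fun w => Or.inr (oB_EB w c).symm

theorem oV_T (v : V) : o (iV v) * T = T := by
  simp only [T, E, one_smul, Finset.mul_sum]
  refine Fintype.sum_equiv (Equiv.addLeft v) _ _ fun w => ?_
  rw [← map_mul, ← iV_add]; rfl

theorem T_oV (v : V) : T * o (iV v) = T := by
  rw [T, ← oV_EV]; exact oV_T v

theorem oB_T (x : B) : o (iB x) * T = T * o (iB x) :=
  o_mul_E iV (iB x) (scal x) (iB_mul_iV x) _

theorem oa_T : o aG * T = T * o aG :=
  o_mul_E iV aG swEquiv aG_mul_iV _

theorem oB_S (x : B) : o (iB x) * S = S * o (iB x) := by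
  rw [S, o_mul_E iV (iB x) (scal x) (iB_mul_iV x)]
  refine congrArg (· * o (iB x)) ?_
  exact E_congr _ fun v => chk_S_smul _ (ph_ne_zero _) v

theorem oa_S : o aG * S = (T + (17 : ℤ) • 1 - S) * o aG := by
  rw [S, o_mul_E iV aG swEquiv aG_mul_iV]
  refine congrArg (· * o aG) ?_
  rw [T, ← E_delta iV iV_zero, ← E_smul, ← E_add, ← E_sub]
  refine E_congr _ fun v => ?_
  have h := chk_S_sw (swEquiv.symm v)
  have h2 : sw (swEquiv.symm v) = v := swEquiv.apply_symm_apply v
  have h3 : swEquiv.symm v = 0 ↔ v = 0 := by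
    rw [Equiv.symm_apply_eq]; exact Iff.of_eq (congrArg (v = ·) sw_zero)
  rw [h, h2]
  simp only [h3]

theorem S_EB (c : B → ℤ) : S * E iB c = E iB c * S :=
  E_comm_of _ _ _ fun w => Or.inr (oB_S w).symm

theorem T_EB (c : B → ℤ) : T * E iB c = E iB c * T :=
  E_comm_of _ _ _ fun w => Or.inr (oB_T w).symm

theorem EV_T (c : V → ℤ) : E iV c * T = (∑ v, c v) • T := by
  simp only [E, Finset.sum_mul, Finset.sum_smul, smul_mul_assoc, oV_T]

theorem S_T : S * T = (153 : ℤ) • T := by rw [S, EV_T, chk_S_sum]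

theorem T_S : T * S = (153 : ℤ) • T := by
  rw [← S_T]
  exact E_comm_of _ _ _ fun w => Or.inr (by rw [T_oV, oV_T])

theorem T_T : T * T = (289 : ℤ) • T := by
  nth_rewrite 1 [T]
  rw [EV_T]
  simp

theorem S_S : S * S = (17 : ℤ) • S + (72 : ℤ) • T := by
  rw [S, T, E_mul iV iV_add, ← E_smul, ← E_smul, ← E_add]
  exact E_congr _ fun v => by rw [chk_SS, mul_one]

theorem oa_EB (c : B → ℤ) : o aG * E iB c = E iB (fun x => c (al x)) * o aG :=
  o_mul_E iB aG alEquiv aG_mul_iB c

theorem oa_F : o aG * F = (F + (17 : ℤ) • X) * o aG := by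
  rw [F, X, oa_EB, ← E_smul, ← E_add, E_congr _ chk_alF]

theorem oa_F' : o aG * F' = (F' + (17 : ℤ) • X') * o aG := by
  rw [F', X', oa_EB, ← E_smul, ← E_add, E_congr _ chk_alF']

theorem oa_X : o aG * X = -X * o aG := by
  rw [X, oa_EB, ← E_neg, E_congr _ chk_alX]

theorem oa_Y : o aG * Y = (Y + X) * o aG := by
  rw [Y, X, oa_EB, ← E_add, E_congr _ chk_alY]

theorem oV_EB (v : V) (c : B → ℤ) (h : ∀ x, ph x = 1 ∨ c x = 0) :
    o (iV v) * E iB c = E iB c * o (iV v) :=
  E_comm_of _ _ _ fun x => (h x).symm.imp id fun hx => by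
    rw [← map_mul, ← map_mul, iB_mul_iV, hx, one_smul]

theorem T_EB_oV (v : V) (c : B → ℤ) : T * E iB c * o (iV v) = T * E iB c := by
  rw [T_EB, mul_assoc, T_oV]

theorem F_F' : F * F' = 1 := by
  rw [F, F', E_mul iB iB_add, E_congr _ chk_FF, E_delta iB iB_zero]

theorem U_eq : E iB cU = F + (153 : ℤ) • X + (289 : ℤ) • Y := by
  rw [F, X, Y, ← E_smul, ← E_smul, ← E_add, ← E_add, E_congr _ chk_U]

theorem U'_eq : E iB cU' = F' + (153 : ℤ) • X' + (289 : ℤ) • Y' := by
  rw [F', X', Y', ← E_smul, ← E_smul, ← E_add, ← E_add, E_congr _ chk_U']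

theorem U_U' : (F + (153 : ℤ) • X + (289 : ℤ) • Y) * (F' + (153 : ℤ) • X' + (289 : ℤ) • Y') = 1 := by
  rw [← U_eq, ← U'_eq, E_mul iB iB_add, E_congr _ chk_UU, E_delta iB iB_zero]

theorem aF_aF' : (F + (17 : ℤ) • X) * (F' + (17 : ℤ) • X') = 1 := by
  have h : o aG * (F * F') = (F + (17 : ℤ) • X) * (F' + (17 : ℤ) • X') * o aG := by
    rw [← mul_assoc, oa_F, mul_assoc, oa_F', mul_assoc]
  rw [F_F', mul_one] at h
  have h2 := congrArg (· * o aG⁻¹) h
  simp only [mul_assoc, ← map_mul, mul_inv_cancel, map_one, mul_one] at h2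
  exact h2.symm

theorem id1 : F * X' + X * F' + (17 : ℤ) • (X * X') = 0 := by
  have h := aF_aF'
  simp only [mul_add, add_mul, smul_mul_assoc, mul_smul_comm, F_F'] at h
  have h2 : (17 : ℤ) • (F * X' + X * F' + (17 : ℤ) • (X * X')) = 0 := by
    linear_combination (norm := module) h
  exact (smul_eq_zero.mp h2).resolve_left (by norm_num)

theorem id2 : F * Y' + Y * F' + (72 : ℤ) • (X * X') + (153 : ℤ) • (X * Y' + Y * X')
    + (289 : ℤ) • (Y * Y') = 0 := by
  have h := U_U'
  simp only [mul_add, add_mul, smul_mul_assoc, mul_smul_comm, F_F'] at h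
  have h2 : (289 : ℤ) • (F * Y' + Y * F' + (72 : ℤ) • (X * X') + (153 : ℤ) • (X * Y' + Y * X')
      + (289 : ℤ) • (Y * Y')) = 0 := by
    linear_combination (norm := module) h - (153 : ℤ) • id1
  exact (smul_eq_zero.mp h2).resolve_left (by norm_num)

noncomputable def u : Λ := F + S * X + T * Y
noncomputable def u' : Λ := F' + S * X' + T * Y'

theorem mul4 (P Q M N : Λ) (h : Q * M = M * Q) : P * M * (Q * N) = P * Q * (M * N) := by
  rw [mul_assoc, ← mul_assoc M, ← h, mul_assoc, mul_assoc]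

theorem mul3 (Q M N : Λ) (h : Q * M = M * Q) : M * (Q * N) = Q * (M * N) := by
  rw [← mul_assoc, ← h, mul_assoc]

theorem u_u' : u * u' = 1 := by
  have hSX : S * X = X * S := S_EB _
  have hTX : T * X = X * T := T_EB _
  have hSY : S * Y = Y * S := S_EB _
  have hTY : T * Y = Y * T := T_EB _
  have e1 : F * (S * X') = S * (F * X') := mul3 _ _ _ (S_EB _)
  have e2 : F * (T * Y') = T * (F * Y') := mul3 _ _ _ (T_EB _)
  have e3 : S * X * F' = S * (X * F') := mul_assoc _ _ _
  have e4 : S * X * (S * X') = (17 : ℤ) • (S * (X * X')) + (72 : ℤ) • (T * (X * X')) := by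
    rw [mul4 _ _ _ _ hSX, S_S, add_mul, smul_mul_assoc, smul_mul_assoc]
  have e5 : S * X * (T * Y') = (153 : ℤ) • (T * (X * Y')) := by
    rw [mul4 _ _ _ _ hTX, S_T, smul_mul_assoc]
  have e6 : T * Y * F' = T * (Y * F') := mul_assoc _ _ _
  have e7 : T * Y * (S * X') = (153 : ℤ) • (T * (Y * X')) := by
    rw [mul4 _ _ _ _ hSY, T_S, smul_mul_assoc]
  have e8 : T * Y * (T * Y') = (289 : ℤ) • (T * (Y * Y')) := by
    rw [mul4 _ _ _ _ hTY, T_T, smul_mul_assoc]
  have h1 := congrArg (S * ·) id1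
  have h2 := congrArg (T * ·) id2
  simp only [mul_add, mul_smul_comm, mul_zero] at h1 h2
  simp only [u, u', mul_add, add_mul, e1, e2, e3, e4, e5, e6, e7, e8, F_F']
  linear_combination (norm := module) h1 + h2

theorem oV_u (v : V) : o (iV v) * u = u * o (iV v) := by
  have h1 : o (iV v) * F = F * o (iV v) := oV_EB v _ chk_suppF
  have h2 : o (iV v) * (S * X) = S * X * o (iV v) := by
    rw [← mul_assoc, S, oV_EV, mul_assoc, X, oV_EB v _ chk_suppX, mul_assoc]
  have h3 : o (iV v) * (T * Y) = T * Y * o (iV v) := by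
    rw [← mul_assoc, oV_T, Y, T_EB_oV]
  rw [u, mul_add, mul_add, add_mul, add_mul, h1, h2, h3]

theorem oB_u (x : B) : o (iB x) * u = u * o (iB x) := by
  have h1 : o (iB x) * F = F * o (iB x) := oB_EB x _
  have h2 : o (iB x) * (S * X) = S * X * o (iB x) := by
    rw [← mul_assoc, oB_S, mul_assoc, X, oB_EB, mul_assoc]
  have h3 : o (iB x) * (T * Y) = T * Y * o (iB x) := by
    rw [← mul_assoc, oB_T, mul_assoc, Y, oB_EB, mul_assoc]
  rw [u, mul_add, mul_add, add_mul, add_mul, h1, h2, h3]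

theorem oa_u : o aG * u = u * o aG := by
  have h2 : o aG * (S * X) = ((T + (17 : ℤ) • 1 - S) * -X) * o aG := by
    rw [← mul_assoc, oa_S, mul_assoc, oa_X, mul_assoc]
  have h3 : o aG * (T * Y) = (T * (Y + X)) * o aG := by
    rw [← mul_assoc, oa_T, mul_assoc, oa_Y, mul_assoc]
  rw [u, mul_add, mul_add, oa_F, h2, h3, ← add_mul, ← add_mul]
  refine congrArg (· * o aG) ?_
  simp only [mul_add, add_mul, sub_mul, mul_neg, smul_mul_assoc, one_mul]
  module

theorem o_u (g : G) : o g * u = u * o g := by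
  rcases G_decomp g with h | h
  · rw [h, map_mul, mul_assoc, oB_u, ← mul_assoc, oV_u, mul_assoc]
  · rw [h, map_mul, map_mul, mul_assoc, oa_u, ← mul_assoc, mul_assoc (o (iV _)), oB_u,
      ← mul_assoc, oV_u]
    simp only [mul_assoc]

theorem u_central (w : Λ) : w * u = u * w := by
  induction w using MonoidAlgebra.induction_on with
  | of g => exact o_u g
  | add x y hx hy => rw [add_mul, mul_add, hx, hy]
  | smul r x hx => rw [smul_mul_assoc, mul_smul_comm, hx]

noncomputable def uUnit : Λˣ := ⟨u, u', u_u', by rw [u_central]; exact u_u'⟩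

/-! ### The linear form -/

def psB (x : B) : ℤ := (if x = (8, 0) then 1 else 0) - (if x = (24, 0) then 1 else 0)
def ps (g : G) : ℤ := if g.e then 0 else psB g.x

theorem psB_neg : ∀ x : B, psB (-x) = -psB x := by decide +kernel
theorem psB_z : ∀ x : B, psB ((16, 0) + x) = -psB x := by decide +kernel

noncomputable def pi : Λ →ₗ[ℤ] ℤ := (MonoidAlgebra.basis G ℤ).constr ℤ ps

theorem pi_o (g : G) : pi (o g) = ps g := by
  have : o g = MonoidAlgebra.basis G ℤ g := rfl
  rw [this, pi, Module.Basis.constr_basis]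

theorem ps_inv (g : G) : ps g⁻¹ = -ps g := by
  obtain ⟨v, x, e⟩ := g
  cases e
  · simp [ps, inv_def, alE, cc, psB_neg]
  · simp [ps, inv_def]

theorem pi_sym (φ : Λ →ₗ[ℤ] Λ)
    (hφ : ∀ g : G, φ (MonoidAlgebra.of ℤ G g) = MonoidAlgebra.of ℤ G g⁻¹) (w : Λ) :
    pi (φ w) = -pi w := by
  induction w using MonoidAlgebra.induction_on with
  | of g => rw [hφ]; exact (pi_o _).trans ((ps_inv g).trans (congrArg Neg.neg (pi_o g).symm))
  | add x y hx hy => rw [map_add, map_add, map_add, hx, hy, neg_add]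
  | smul r x hx => rw [map_smul, map_smul, map_smul, hx, smul_neg]

theorem pi_o_mul (g : G) (ε : ℤ) (h : ∀ k, ps (g * k) = ε * ps k) (w : Λ) :
    pi (o g * w) = ε * pi w := by
  induction w using MonoidAlgebra.induction_on with
  | of k =>
    have : o g * MonoidAlgebra.of ℤ G k = o (g * k) := (map_mul o g k).symm
    rw [this, pi_o, h]; exact congrArg (ε * ·) (pi_o k).symm
  | add x y hx hy => rw [mul_add, map_add, map_add, hx, hy, mul_add]
  | smul r x hx => rw [mul_smul_comm, map_smul, map_smul, hx, smul_eq_mul, smul_eq_mul]; ring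

theorem ps_iV_mul (v : V) (k : G) : ps (iV v * k) = 1 * ps k := by
  simp [ps, iV, mul_def, alE, cc]

theorem pi_EV_mul (c : V → ℤ) (w : Λ) : pi (E iV c * w) = (∑ v, c v) * pi w := by
  simp only [E, Finset.sum_mul, smul_mul_assoc, map_sum, map_smul, smul_eq_mul]
  refine Finset.sum_congr rfl fun v _ => ?_
  rw [pi_o_mul _ 1 (ps_iV_mul v), one_mul]

theorem pi_EB (c : B → ℤ) : pi (E iB c) = c (8, 0) - c (24, 0) := by
  simp only [E, map_sum, map_smul, pi_o, smul_eq_mul]
  have key : ∀ p : B, ∑ x, c x * (if x = p then 1 else 0) = c p := by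
    intro p; simp
  have h : ∀ x : B, ps (iB x) = psB x := fun _ => rfl
  simp only [h, psB, mul_sub, Finset.sum_sub_distrib, key]

theorem pi_u : pi u ≠ 0 := by
  have h : pi u = pi (E iB cU) := by
    rw [U_eq, u, map_add, map_add, map_add, map_add, S, T, pi_EV_mul, pi_EV_mul, chk_S_sum,
      map_smul, map_smul]
    simp
  rw [h, pi_EB]
  exact chk_ne

theorem pi_central (g : G) (hg : g ∈ Subgroup.center G) (w : Λ) (hw : pi w = 0) :
    pi (o g * w) = 0 := by
  obtain ⟨he, hx⟩ := center_spec g hg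
  obtain ⟨v, x, e⟩ := g
  simp only at he hx
  subst he
  rcases hx with rfl | rfl
  · rw [pi_o_mul _ 1 (fun k => by simp [ps, mul_def, alE, cc]), hw, mul_zero]
  · rw [pi_o_mul _ (-1) (fun k => ?_), hw, mul_zero]
    obtain ⟨v', x', e'⟩ := k
    cases e' <;> simp [ps, mul_def, alE, cc, psB_z]

noncomputable def star : Λ →ₗ[ℤ] Λ := MonoidAlgebra.mapDomainLinearMap ℤ ℤ (fun g : G => g⁻¹)

theorem star_of (g : G) : star (MonoidAlgebra.of ℤ G g) = MonoidAlgebra.of ℤ G g⁻¹ :=
  MonoidAlgebra.mapDomainLinearMap_single _ _ _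

theorem not_product (g : G) (hg : g ∈ Subgroup.center G) (w : Λ) (hw : star w = w) :
    u ≠ MonoidAlgebra.of ℤ G g * w := by
  intro h
  have h1 := pi_sym star star_of w
  rw [hw] at h1
  have h2 : pi w = 0 := by linarith
  exact pi_u (h ▸ pi_central g hg w h2)

end Pool.Agent.P.MP_29dbc1_al
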